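import Pool.Agent.W819.NC.Stm

/-! NC-FIN (helper819): the final estimate. -/

set_option autoImplicit false

namespace Pool.Agent.W688.NC

open H974 Finset Pool.Agent.W819.EN Pool.Agent.W819.NC

/-! ### comparability -/

/-- comparable up to the factor `K` -/
def Cmp (K x y : ℝ) : Prop := x ≤ K * y ∧ y ≤ K * x

lemma Cmp.symm {K x y : ℝ} (h : Cmp K x y) : Cmp K y x := ⟨h.2, h.1⟩

lemma Cmp.trans {K L x y z : ℝ} (hK : 0 ≤ K) (hL : 0 ≤ L) (h : Cmp K x y) (h' : Cmp L y z) :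
    Cmp (K * L) x z := by
  constructor
  · calc x ≤ K * y := h.1
      _ ≤ K * (L * z) := mul_le_mul_of_nonneg_left h'.1 hK
      _ = K * L * z := by ring
  · calc z ≤ L * y := h'.2
      _ ≤ L * (K * x) := mul_le_mul_of_nonneg_left h.2 hL
      _ = K * L * x := by ring

lemma Cmp.mul {K L x y x' y' : ℝ} (hx : 0 ≤ x) (hy : 0 ≤ y) (hx' : 0 ≤ x')
    (hy' : 0 ≤ y') (hK : 0 ≤ K) (h : Cmp K x y) (h' : Cmp L x' y') :
    Cmp (K * L) (x * x') (y * y') := by
  constructor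
  · calc x * x' ≤ (K * y) * (L * y') := mul_le_mul h.1 h'.1 hx' (mul_nonneg hK hy)
      _ = K * L * (y * y') := by ring
  · calc y * y' ≤ (K * x) * (L * x') := mul_le_mul h.2 h'.2 hy' (mul_nonneg hK hx)
      _ = K * L * (x * x') := by ring

lemma Cmp.mono {K L x y : ℝ} (hx : 0 ≤ x) (hy : 0 ≤ y) (h : Cmp K x y) (hKL : K ≤ L) :
    Cmp L x y :=
  ⟨h.1.trans (mul_le_mul_of_nonneg_right hKL hy), h.2.trans (mul_le_mul_of_nonneg_right hKL hx)⟩

lemma Cmp.rpow {x y : ℝ} (hx : 0 < x) (hy : 0 < y) (h1 : x ≤ 64 * y) (h2 : y ≤ 64 * x) (p : ℝ) :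
    Cmp ((64 : ℝ) ^ |p|) (x ^ p) (y ^ p) := by
  have key : ∀ x y : ℝ, 0 < x → 0 < y → x ≤ 64 * y → y ≤ 64 * x → x ^ p ≤ (64 : ℝ) ^ |p| * y ^ p := by
    intro x y hx hy h1 h2
    rcases le_or_gt 0 p with hp | hp
    · rw [abs_of_nonneg hp, ← Real.mul_rpow (by norm_num) hy.le]
      exact Real.rpow_le_rpow hx.le h1 hp
    · rw [abs_of_neg hp]
      have e1 : y / 64 ≤ x := by rw [div_le_iff₀ (by norm_num)]; linarith
      have e2 : x ^ p ≤ (y / 64) ^ p := Real.rpow_le_rpow_of_nonpos (by positivity) e1 hp.le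
      refine e2.trans (le_of_eq ?_)
      rw [Real.div_rpow hy.le (by norm_num), Real.rpow_neg (by norm_num), div_eq_mul_inv, mul_comm]
  exact ⟨key x y hx hy h1 h2, key y x hy hx h2 h1⟩

lemma one_cmp {N : NT} (h1 : OneS N) (t : ℝ) (ht : 0 < t) : ∃ K : ℝ, 0 < K ∧ ∀ R : ℕ, 1 ≤ R →
    Cmp K (G N t 0 R) ((R : ℝ) ^ Psi t) := by
  obtain ⟨c, C, hc, hC, h⟩ := h1 t ht
  refine ⟨C + c⁻¹, by positivity, fun R hR => ?_⟩
  obtain ⟨e1, e2⟩ := h R hR
  have hp : 0 < (R : ℝ) ^ Psi t := by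
    have : (0 : ℝ) < R := by exact_mod_cast hR
    positivity
  have hG : 0 ≤ G N t 0 R := le_trans (by positivity) e1
  constructor
  · refine e2.trans (mul_le_mul_of_nonneg_right ?_ hp.le)
    have : 0 < c⁻¹ := by positivity
    linarith
  · have e3 : (R : ℝ) ^ Psi t ≤ c⁻¹ * G N t 0 R := by
      rw [le_inv_mul_iff₀ hc]
      exact e1
    refine e3.trans (mul_le_mul_of_nonneg_right ?_ hG)
    linarith

lemma ann_cmp {N : NT} (hA : AnnS N) (t : ℝ) (ht : 0 < t) : ∃ K : ℝ, 0 < K ∧ ∀ r R : ℕ, 1 ≤ r →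
    r ≤ R → Cmp K (G N t r R) (((R : ℝ) / r) ^ Psi t) := by
  obtain ⟨c, C, hc, hC, h⟩ := hA t ht
  refine ⟨C + c⁻¹, by positivity, fun r R hr hR => ?_⟩
  obtain ⟨e1, e2⟩ := h r R hr hR
  have hp : 0 < ((R : ℝ) / r) ^ Psi t := by
    have h0 : (0 : ℝ) < r := by exact_mod_cast hr
    have : (0 : ℝ) < R := by exact_mod_cast (by omega : 0 < R)
    positivity
  have hG : 0 ≤ G N t r R := le_trans (by positivity) e1
  constructor
  · refine e2.trans (mul_le_mul_of_nonneg_right ?_ hp.le)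
    have : 0 < c⁻¹ := by positivity
    linarith
  · have e3 : ((R : ℝ) / r) ^ Psi t ≤ c⁻¹ * G N t r R := by
      rw [le_inv_mul_iff₀ hc]
      exact e1
    refine e3.trans (mul_le_mul_of_nonneg_right ?_ hG)
    linarith

/-! ### locality -/

lemma bx_sub (v w : Vtx) {k l : ℤ} (h1 : l ≤ w.1 - v.1 + k) (h1' : l ≤ v.1 - w.1 + k)
    (h2 : l ≤ w.2 - v.2 + k) (h2' : l ≤ v.2 - w.2 + k) : bx w l ⊆ bx v k := by
  unfold bx
  exact RE_subset (by omega) (by omega) (by omega) (by omega)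

lemma loc' {N : NT} (hG : Geo N) {v : Vtx} {r R : ℕ} (h : r ≤ R)
    {S : Finset Edg} (hS : an v r R ⊆ S) (F : Finset Edg) : N F v r R = N (F ∩ S) v r R := by
  rw [hG.loc F v r R h, hG.loc (F ∩ S) v r R h]
  congr 1
  ext x
  simp only [Finset.mem_inter]
  constructor
  · rintro ⟨h1, h2⟩
    exact ⟨⟨h1, hS h2⟩, h2⟩
  · rintro ⟨⟨h1, -⟩, h2⟩
    exact ⟨h1, h2⟩

lemma T2_loc {N : NT} (hG : Geo N) (t1 t2 : ℝ) (v w : Vtx) (n : ℕ) (S : Finset Edg)
    (hv : bx v n ⊆ S) (hw : bx w n ⊆ S) : T2 N t1 t2 v w n S = T2 N t1 t2 v w n (bx v n ∪ bx w n) := by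
  unfold T2
  refine Ex_local (union_subset hv hw) fun F _ => ?_
  have e1 : N F v 0 n = N (F ∩ (bx v n ∪ bx w n)) v 0 n :=
    loc' hG (Nat.zero_le _) (sdiff_subset.trans subset_union_left) F
  have e2 : N F w 0 n = N (F ∩ (bx v n ∪ bx w n)) w 0 n :=
    loc' hG (Nat.zero_le _) (sdiff_subset.trans subset_union_right) F
  rw [← e1, ← e2]

lemma T2_swap (N : NT) (t1 t2 : ℝ) (v w : Vtx) (n : ℕ) (S : Finset Edg) :
    T2 N t1 t2 v w n S = T2 N t2 t1 w v n S := by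
  unfold T2
  congr 1
  funext F
  ring

lemma hok : Ok P2 := okq (q := (1 / 2 : ℝ)) (by norm_num) (by norm_num)

lemma G_nonneg (N : NT) (t : ℝ) (ht : 0 < t) (r R : ℕ) : 0 ≤ G N t r R :=
  Ex_nonneg hok fun _ _ => by positivity

lemma T2_nonneg (N : NT) (t1 t2 : ℝ) (ht1 : 0 < t1) (ht2 : 0 < t2) (v w : Vtx) (n : ℕ)
    (S : Finset Edg) : 0 ≤ T2 N t1 t2 v w n S :=
  Ex_nonneg hok fun _ _ => by positivity

/-- everything is bounded in a bounded box -/
lemma T2_small {N : NT} (hG : Geo N) (t1 t2 : ℝ) (ht1 : 0 < t1) (ht2 : 0 < t2) :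
    ∃ K : ℝ, 0 < K ∧ ∀ (v w : Vtx) (n : ℕ) (S : Finset Edg), n ≤ 640 →
      Cmp K (T2 N t1 t2 v w n S) 1 := by
  have pw : ∀ t : ℝ, 0 < t → ∀ k : ℕ, k ≤ 1280 →
      (min t 1) ^ 1280 ≤ t ^ k ∧ t ^ k ≤ (max t 1) ^ 1280 := by
    intro t ht k hk
    have hm : 0 < min t 1 := lt_min ht one_pos
    constructor
    · calc (min t 1) ^ 1280 ≤ (min t 1) ^ k := pow_le_pow_of_le_one hm.le (min_le_right _ _) hk
        _ ≤ t ^ k := pow_le_pow_left₀ hm.le (min_le_left _ _) k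
    · calc t ^ k ≤ (max t 1) ^ k := pow_le_pow_left₀ ht.le (le_max_left _ _) k
        _ ≤ (max t 1) ^ 1280 := pow_le_pow_right₀ (le_max_right _ _) hk
  obtain ⟨m, hm⟩ : ∃ m, m = (min t1 1) ^ 1280 * (min t2 1) ^ 1280 := ⟨_, rfl⟩
  obtain ⟨M, hM⟩ : ∃ M, M = (max t1 1) ^ 1280 * (max t2 1) ^ 1280 := ⟨_, rfl⟩
  have h1 : 0 < min t1 1 := lt_min ht1 one_pos
  have h2 : 0 < min t2 1 := lt_min ht2 one_pos
  have h1' : 0 < max t1 1 := lt_max_of_lt_left ht1
  have h2' : 0 < max t2 1 := lt_max_of_lt_left ht2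
  have hm0 : 0 < m := by rw [hm]; positivity
  have hM0 : 0 < M := by rw [hM]; positivity
  refine ⟨M + m⁻¹, by positivity, fun v w n S hn => ?_⟩
  have hlow : m ≤ T2 N t1 t2 v w n S := by
    unfold T2
    rw [← Ex_const P2 S m]
    refine Ex_mono hok fun F _ => ?_
    rw [hm]
    exact mul_le_mul (pw t1 ht1 _ (by have := hG.le F v 0 n; omega)).1
      (pw t2 ht2 _ (by have := hG.le F w 0 n; omega)).1 (by positivity) (by positivity)
  have hup : T2 N t1 t2 v w n S ≤ M := by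
    unfold T2
    refine Ex_le_of_le hok fun F _ => ?_
    rw [hM]
    exact mul_le_mul (pw t1 ht1 _ (by have := hG.le F v 0 n; omega)).2
      (pw t2 ht2 _ (by have := hG.le F w 0 n; omega)).2 (by positivity) (by positivity)
  have hmi : 0 < m⁻¹ := by positivity
  constructor
  · rw [mul_one]; linarith
  · have e1 : 1 ≤ m⁻¹ * T2 N t1 t2 v w n S := by
      rw [le_inv_mul_iff₀ hm0, mul_one]; exact hlow
    nlinarith

/-- the estimate for `v.1 ≤ w.1` -/
lemma core {N : NT} {W : WT} {K : KT} (h : Sys N W K) (h1 : OneS N) (hA : AnnS N) (h2 : Two1 N)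
    (h3 : Two2 N) (h4 : Two3 N) (t1 t2 : ℝ) (ht1 : 0 < t1) (ht2 : 0 < t2) :
    ∃ L : ℝ, 0 < L ∧ ∀ (v w : Vtx) (d n : ℕ) (S : Finset Edg), 1 ≤ d → d ≤ n →
      max |v.1 - w.1| |v.2 - w.2| = d → bx v n ⊆ S → bx w n ⊆ S → v.1 ≤ w.1 →
      Cmp L (T2 N t1 t2 v w n S)
        (((n : ℝ) / d) ^ Psi (t1 * t2) * (d : ℝ) ^ (Psi t1 + Psi t2)) := by
  obtain ⟨K1, hK1, c1⟩ := one_cmp h1 t1 ht1
  obtain ⟨K2, hK2, c2⟩ := one_cmp h1 t2 ht2
  obtain ⟨K3, hK3, c3⟩ := ann_cmp hA (t1 * t2) (by positivity)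
  obtain ⟨B1, hB1, d1⟩ := h2 t1 t2 ht1 ht2
  obtain ⟨B2, hB2, d2⟩ := h3 t1 t2 ht1 ht2
  obtain ⟨B3, hB3, d3⟩ := h4 t1 t2 ht1 ht2
  obtain ⟨K4, hK4, c4⟩ := T2_small h.geo t1 t2 ht1 ht2
  obtain ⟨p, hp⟩ : ∃ p, p = Psi (t1 * t2) := ⟨_, rfl⟩
  obtain ⟨p1, hp1⟩ : ∃ p1, p1 = Psi t1 := ⟨_, rfl⟩
  obtain ⟨p2, hp2⟩ : ∃ p2, p2 = Psi t2 := ⟨_, rfl⟩
  rw [← hp] at c3 ⊢
  rw [← hp1, ← hp2]
  rw [← hp1] at c1
  rw [← hp2] at c2
  obtain ⟨M, hM⟩ : ∃ M, M = (64 : ℝ) ^ |p| := ⟨_, rfl⟩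
  obtain ⟨M1, hM1⟩ : ∃ M1, M1 = (64 : ℝ) ^ |p1| := ⟨_, rfl⟩
  obtain ⟨M2, hM2⟩ : ∃ M2, M2 = (64 : ℝ) ^ |p2| := ⟨_, rfl⟩
  have hM0 : 0 < M := by rw [hM]; positivity
  have hM10 : 0 < M1 := by rw [hM1]; positivity
  have hM20 : 0 < M2 := by rw [hM2]; positivity
  have ht12 : 0 < t1 * t2 := by positivity
  refine ⟨B1 * (((K1 * M1) * (K2 * M2)) * (K3 * M)) + B2 * (((K1 * M1) * (K2 * M2)) * M) +
    B3 * ((K3 * M) * (M1 * M2)) + K4 * (M * (M1 * M2)), by positivity, ?_⟩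
  intro v w d n S hd hdn hmax hv hw hvw
  have hdR : (1 : ℝ) ≤ d := by exact_mod_cast hd
  have hd0 : (0 : ℝ) < d := by linarith
  have hdnR : (d : ℝ) ≤ n := by exact_mod_cast hdn
  have hn0 : (0 : ℝ) < n := by linarith
  have hT := T2_nonneg N t1 t2 ht1 ht2 v w n S
  have hsplit : (d : ℝ) ^ (p1 + p2) = (d : ℝ) ^ p1 * (d : ℝ) ^ p2 := Real.rpow_add hd0 _ _
  rw [hsplit]
  have hX : 0 < ((n : ℝ) / d) ^ p := by positivity
  have hY1 : 0 < (d : ℝ) ^ p1 := by positivity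
  have hY2 : 0 < (d : ℝ) ^ p2 := by positivity
  have habs1 : |v.1 - w.1| ≤ d := by rw [← hmax]; exact le_max_left _ _
  have habs2 : |v.2 - w.2| ≤ d := by rw [← hmax]; exact le_max_right _ _
  have hor : w.1 - v.1 = d ∨ |v.2 - w.2| = d := by
    rcases max_choice |v.1 - w.1| |v.2 - w.2| with h5 | h5
    · left
      rw [h5] at hmax
      rw [← hmax, abs_of_nonpos (by omega)]
      ring
    · right
      rw [h5] at hmax
      exact hmax
  -- enlarge the set
  obtain ⟨a1, a1'⟩ := abs_le.mp habs1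
  obtain ⟨a2, a2'⟩ := abs_le.mp habs2
  have hS : T2 N t1 t2 v w n S = T2 N t1 t2 v w n (bx v (12 * d + n)) := by
    rw [T2_loc h.geo t1 t2 v w n S hv hw, T2_loc h.geo t1 t2 v w n (bx v (12 * d + n))
      (bx_sub v v (by omega) (by omega) (by omega) (by omega))
      (bx_sub v w (by omega) (by omega) (by omega) (by omega))]
  -- the four cases
  have e0 : 0 < B1 * (((K1 * M1) * (K2 * M2)) * (K3 * M)) := by positivity
  have e1 : 0 < B2 * (((K1 * M1) * (K2 * M2)) * M) := by positivity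
  have e2 : 0 < B3 * ((K3 * M) * (M1 * M2)) := by positivity
  have e3 : 0 < K4 * (M * (M1 * M2)) := by positivity
  have hgoal0 : 0 ≤ ((n : ℝ) / d) ^ p * ((d : ℝ) ^ p1 * (d : ℝ) ^ p2) := by positivity
  rcases le_or_gt 64 d with hd64 | hd64
  · obtain ⟨a, ha⟩ : ∃ a, a = d / 64 := ⟨_, rfl⟩
    have ha1 : 1 ≤ a := by omega
    have ha2 : 64 * a ≤ d := by omega
    have ha3 : d < 128 * a := by omega
    have ha2R : 64 * (a : ℝ) ≤ d := by exact_mod_cast ha2
    have ha3R : (d : ℝ) < 128 * a := by exact_mod_cast ha3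
    have haR : (1 : ℝ) ≤ a := by exact_mod_cast ha1
    have hg : ∀ q : ℝ, Cmp ((64 : ℝ) ^ |q|) (((2 * a : ℕ) : ℝ) ^ q) ((d : ℝ) ^ q) := by
      intro q
      apply Cmp.rpow
      · push_cast; linarith
      · exact hd0
      · push_cast; linarith
      · push_cast; linarith
    have g1 : Cmp (K1 * M1) (G N t1 0 (2 * a)) ((d : ℝ) ^ p1) :=
      (c1 (2 * a) (by omega)).trans hK1.le hM10.le (by rw [hM1]; exact hg p1)
    have g2 : Cmp (K2 * M2) (G N t2 0 (2 * a)) ((d : ℝ) ^ p2) :=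
      (c2 (2 * a) (by omega)).trans hK2.le hM20.le (by rw [hM2]; exact hg p2)
    have G1 := G_nonneg N t1 ht1 0 (2 * a)
    have G2 := G_nonneg N t2 ht2 0 (2 * a)
    have g12 := g1.mul G1 hY1.le G2 hY2.le (by positivity) g2
    rcases le_or_gt (10 * d) n with hn | hn
    · -- case A
      have f1 := d1 v w a d n (bx v (12 * d + n)) ha1 ha2 ha3 hn hvw habs1 habs2 hor
        (bx_sub v v (by omega) (by omega) (by omega) (by omega))
      rw [← hS] at f1
      have f2 : Cmp B1 (T2 N t1 t2 v w n S) (G N t1 0 (2 * a) * G N t2 0 (2 * a) *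
        G N (t1 * t2) (4 * d) (n - d)) := ⟨f1.2, f1.1⟩
      have G3 := G_nonneg N (t1 * t2) ht12 (4 * d) (n - d)
      have hnR : 10 * (d : ℝ) ≤ n := by exact_mod_cast hn
      have hcast : ((n - d : ℕ) : ℝ) = n - d := by rw [Nat.cast_sub hdn]
      have g3 : Cmp (K3 * M) (G N (t1 * t2) (4 * d) (n - d)) (((n : ℝ) / d) ^ p) := by
        refine (c3 (4 * d) (n - d) (by omega) (by omega)).trans hK3.le hM0.le ?_
        rw [hM, hcast]
        push_cast
        apply Cmp.rpow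
        · apply div_pos <;> linarith
        · positivity
        · rw [div_le_iff₀ (by positivity)]
          have : 64 * ((n : ℝ) / d) * (4 * d) = 256 * n := by field_simp; ring
          rw [this]; linarith
        · rw [div_le_iff₀ hd0]
          have : 64 * (((n : ℝ) - d) / (4 * d)) * d = 16 * (n - d) := by field_simp; ring
          rw [this]; linarith
      have g123 := g12.mul (mul_nonneg G1 G2) (by positivity) G3 hX.le (by positivity) g3
      have f3 := f2.trans hB1.le (by positivity) g123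
      rw [mul_comm ((d : ℝ) ^ p1 * (d : ℝ) ^ p2)] at f3
      exact f3.mono hT hgoal0 (by linarith)
    · -- case B
      have f1 := d2 v w a d n (bx v (12 * d + n)) ha1 ha2 ha3 hdn hn.le hvw habs1 habs2 hor
        (bx_sub v v (by omega) (by omega) (by omega) (by omega))
      rw [← hS] at f1
      have f2 : Cmp B2 (T2 N t1 t2 v w n S) (G N t1 0 (2 * a) * G N t2 0 (2 * a)) :=
        ⟨f1.2, f1.1⟩
      have hnR : (n : ℝ) ≤ 10 * d := by exact_mod_cast hn.le
      have g3 : Cmp M 1 (((n : ℝ) / d) ^ p) := by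
        have := Cmp.rpow (x := 1) (y := (n : ℝ) / d) one_pos (by positivity) (by
          have : 1 ≤ (n : ℝ) / d := by rw [le_div_iff₀ hd0]; linarith
          linarith) (by
          rw [div_le_iff₀ hd0]; linarith) p
        rw [Real.one_rpow] at this
        rw [hM]; exact this
      have g123 := g12.mul (mul_nonneg G1 G2) (by positivity) zero_le_one hX.le (by positivity) g3
      rw [mul_one] at g123
      have f3 := f2.trans hB2.le (by positivity) g123
      rw [mul_comm ((d : ℝ) ^ p1 * (d : ℝ) ^ p2)] at f3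
      exact f3.mono hT hgoal0 (by linarith)
  · have hd64R : (d : ℝ) ≤ 64 := by exact_mod_cast hd64.le
    have hg : ∀ q : ℝ, Cmp ((64 : ℝ) ^ |q|) 1 ((d : ℝ) ^ q) := by
      intro q
      have := Cmp.rpow (x := 1) (y := (d : ℝ)) one_pos hd0 (by linarith) (by linarith) q
      rwa [Real.one_rpow] at this
    have g1 : Cmp M1 1 ((d : ℝ) ^ p1) := by rw [hM1]; exact hg p1
    have g2 : Cmp M2 1 ((d : ℝ) ^ p2) := by rw [hM2]; exact hg p2
    have g12 := g1.mul zero_le_one hY1.le zero_le_one hY2.le hM10.le g2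
    rw [mul_one] at g12
    rcases le_or_gt (10 * d) n with hn | hn
    · -- case C
      have f1 := d3 v w d n (bx v (12 * d + n)) hd hd64 hn habs1 habs2
        (bx_sub v v (by omega) (by omega) (by omega) (by omega))
      rw [← hS] at f1
      have f2 : Cmp B3 (T2 N t1 t2 v w n S) (G N (t1 * t2) (4 * d) (n - d)) := ⟨f1.2, f1.1⟩
      have G3 := G_nonneg N (t1 * t2) ht12 (4 * d) (n - d)
      have hnR : 10 * (d : ℝ) ≤ n := by exact_mod_cast hn
      have hcast : ((n - d : ℕ) : ℝ) = n - d := by rw [Nat.cast_sub hdn]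
      have g3 : Cmp (K3 * M) (G N (t1 * t2) (4 * d) (n - d)) (((n : ℝ) / d) ^ p) := by
        refine (c3 (4 * d) (n - d) (by omega) (by omega)).trans hK3.le hM0.le ?_
        rw [hM, hcast]
        push_cast
        apply Cmp.rpow
        · apply div_pos <;> linarith
        · positivity
        · rw [div_le_iff₀ (by positivity)]
          have : 64 * ((n : ℝ) / d) * (4 * d) = 256 * n := by field_simp; ring
          rw [this]; linarith
        · rw [div_le_iff₀ hd0]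
          have : 64 * (((n : ℝ) - d) / (4 * d)) * d = 16 * (n - d) := by field_simp; ring
          rw [this]; linarith
      have g123 := g3.mul G3 hX.le zero_le_one (by positivity) (by positivity) g12
      rw [mul_one] at g123
      have f3 := f2.trans hB3.le (by positivity) g123
      exact f3.mono hT hgoal0 (by linarith)
    · -- case D
      have f2 := c4 v w n S (by omega)
      have hnR : (n : ℝ) ≤ 10 * d := by exact_mod_cast hn.le
      have g3 : Cmp M 1 (((n : ℝ) / d) ^ p) := by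
        have := Cmp.rpow (x := 1) (y := (n : ℝ) / d) one_pos (by positivity) (by
          have : 1 ≤ (n : ℝ) / d := by rw [le_div_iff₀ hd0]; linarith
          linarith) (by
          rw [div_le_iff₀ hd0]; linarith) p
        rw [Real.one_rpow] at this
        rw [hM]; exact this
      have g123 := g3.mul zero_le_one hX.le zero_le_one (by positivity) hM0.le g12
      rw [mul_one] at g123
      have f3 := f2.trans hK4.le (by positivity) g123
      exact f3.mono hT hgoal0 (by linarith)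

theorem t_FIN {N : NT} {W : WT} {K : KT} (h : Sys N W K) (h1 : OneS N) (hA : AnnS N)
    (h2 : Two1 N) (h3 : Two2 N) (h4 : Two3 N) : TwoPt N := by
  intro t1 t2 ht1 ht2
  obtain ⟨L1, hL1, c1⟩ := core h h1 hA h2 h3 h4 t1 t2 ht1 ht2
  obtain ⟨L2, hL2, c2⟩ := core h h1 hA h2 h3 h4 t2 t1 ht2 ht1
  refine ⟨(L1 + L2)⁻¹, L1 + L2, by positivity, by positivity, ?_⟩
  intro v w d n S hd hdn hmax hv hw
  have hT := T2_nonneg N t1 t2 ht1 ht2 v w n S
  have hdR : (1 : ℝ) ≤ d := by exact_mod_cast hd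
  have hd0 : (0 : ℝ) < d := by linarith
  have hdnR : (d : ℝ) ≤ n := by exact_mod_cast hdn
  have hn0 : (0 : ℝ) < n := by linarith
  have hX : 0 ≤ ((n : ℝ) / d) ^ Psi (t1 * t2) * (d : ℝ) ^ (Psi t1 + Psi t2) := by positivity
  have key : Cmp (L1 + L2) (T2 N t1 t2 v w n S)
      (((n : ℝ) / d) ^ Psi (t1 * t2) * (d : ℝ) ^ (Psi t1 + Psi t2)) := by
    rcases le_total v.1 w.1 with h5 | h5
    · exact (c1 v w d n S hd hdn hmax hv hw h5).mono hT hX (by linarith)
    · have h6 := c2 w v d n S hd hdn (by rw [abs_sub_comm w.1, abs_sub_comm w.2]; exact hmax)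
        hw hv h5
      rw [← T2_swap, mul_comm t2 t1, add_comm (Psi t2)] at h6
      exact h6.mono hT hX (by linarith)
  refine ⟨?_, key.1⟩
  rw [inv_mul_le_iff₀ (by positivity)]
  exact key.2

end Pool.Agent.W688.NC
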